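import Pool.Agent.Y103.Fb.Main

/-!
# The compact definitions
-/

set_option autoImplicit false

open CategoryTheory AlgebraicGeometry NumberField

universe u v

namespace Pool.Agent.Y103.Fb

open Pool.Agent.H914 Pool.Agent.H914.VarClass Pool.Agent.H914.VarClass.Obj
  Pool.Agent.H914.WeilCohomology Pool.Agent.W534 Pool.Agent.Y103.Hk

variable {k : Type u} [Field k] {𝒱 : VarClass k} {ops : CycleOps 𝒱}
  {W : WeilCohomology.{u, v} ops} {p : ℕ} {Φ : FrobSystem W p} {X : 𝒱.Obj} {j : ℕ}

theorem span_classesIn : Submodule.span W.K (classesIn W X j) = spanCycles W X (j : ℤ) := by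
  have h : {c : W.H X | ∃ q : ℕ, (q : ℤ) = (j : ℤ) ∧ ∃ z, X.IsCyc q z ∧ W.cl X z = c} =
      classesIn W X j := by
    ext c
    constructor
    · rintro ⟨q, hq, z, hz⟩
      rw [Nat.cast_inj.1 hq] at hz
      exact ⟨z, hz⟩
    · rintro ⟨z, hz⟩
      exact ⟨j, rfl, z, hz⟩
  show _ = Submodule.span W.K _
  rw [h]

theorem tate_iff : Tate Φ X j ↔ TateIn Φ X j := by
  constructor
  · intro h c hc
    rw [← span_classesIn]
    exact h c hc.1 hc.2
  · intro h c hc h'
    rw [span_classesIn]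
    exact h c ⟨hc, h'⟩

theorem semisimpleTate_iff : SemisimpleTate Φ X j ↔ SemisimpleTateIn Φ X j := by
  have hcard : ∀ s : ℕ, ((card Φ X s : W.K) ^ j) = (p : W.K) ^ (Φ.e X * s * j) := by
    intro s
    rw [W534.card]
    push_cast
    rw [← pow_mul]
  constructor
  · intro h s hs c hc
    rw [← span_classesIn]
    have h1 : c ∈ Module.End.maxGenEigenspace (W.map (W534.iter (Φ.Fr X) s)).toLinearMap
      ((card Φ X s : W.K) ^ j) := hc.1
    rw [hcard s] at h1
    exact h c hc.2 ⟨s, hs, h1⟩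
  · intro h c hc h'
    obtain ⟨s, hs, h1⟩ := h'
    rw [span_classesIn]
    refine h s hs ⟨?_, hc⟩
    show c ∈ Module.End.maxGenEigenspace (W.map (W534.iter (Φ.Fr X) s)).toLinearMap
      ((card Φ X s : W.K) ^ j)
    rw [hcard s]
    exact h1

end Pool.Agent.Y103.Fb
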