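import Pool.Agent.Y103.Hk.Defs2

/-!
# Varieties whose cohomology is built from several pieces of K3 type: definitions
-/

set_option autoImplicit false

open CategoryTheory AlgebraicGeometry NumberField

universe u v

namespace Pool.Agent.Y103.Fb

open Pool.Agent.H914 Pool.Agent.H914.VarClass Pool.Agent.H914.VarClass.Obj
  Pool.Agent.H914.WeilCohomology Pool.Agent.W534 Pool.Agent.Y103.Hk

/-- The algebra is spanned by the products of elements of the sets `S i` and of an element of `T`,
with at most `n i` factors marked by `i` (they are in `S i`), for each `i`. -/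
def SpannedByMixedWords (K : Type*) {H : Type*} [Field K] [Ring H] [Algebra K H] {r : ℕ}
    (S : Fin r → Set H) (T : Set H) (n : Fin r → ℕ) : Prop :=
  Submodule.span K {a | ∃ (l : List (Fin r × H)) (c : H),
    (∀ i, (l.filter fun y => y.1 = i).length ≤ n i) ∧ (∀ y ∈ l, y.2 ∈ S y.1) ∧ c ∈ T ∧
    a = (l.map Prod.snd).prod * c} = ⊤

/-- The variety `Z` is *built from `n i` copies* of the piece of the cohomology of `X i` given by
`α i`, for each `i`: the cohomology of `Z` is spanned by the products of a class of an algebraic
cycle and, for each `i`, of at most `n i` images, under algebraic correspondences from `X i` to `Z`,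
of eigenvectors of the Frobenius endomorphism in `H^{2 b i}(X i)` with eigenvalues given by the
conjugates of `α i`. -/
def IsBuiltFromMany {k : Type u} [Field k] {𝒱 : VarClass k} {ops : CycleOps 𝒱}
    {W : WeilCohomology.{u, v} ops} {p : ℕ} (Φ : FrobSystem W p) {r : ℕ} (X : Fin r → 𝒱.Obj)
    (b e : Fin r → ℕ) {E : Fin r → Type} [∀ i, Field (E i)] (α : ∀ i, E i) (n : Fin r → ℕ)
    (Z : 𝒱.Obj) : Prop :=
  SpannedByMixedWords W.K (fun i => twistImages Φ (X i) (b i) (e i) (α i) Z) (cycleClasses W Z) n

/-- The elements of `V` which are, for some `s > 0`, eigenvectors of `F s` with the eigenvalue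
`p ^ (r s j)` are linear combinations of elements of `S`. -/
def TateFor {K H : Type*} [Field K] [Ring H] [Algebra K H] (V : Submodule K H)
    (F : ℕ → H →ₐ[K] H) (p r j : ℕ) (S : Set H) : Prop :=
  ∀ c ∈ V, (∃ s, 0 < s ∧ F s c = (p : K) ^ (r * s * j) • c) → c ∈ Submodule.span K S

/-- The elements of `V` which are, for some `s > 0`, in the generalised eigenspace of `F s` for the
eigenvalue `p ^ (r s j)` are linear combinations of elements of `S`. -/
def SemisimpleTateFor {K H : Type*} [Field K] [Ring H] [Algebra K H] (V : Submodule K H)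
    (F : ℕ → H →ₐ[K] H) (p r j : ℕ) (S : Set H) : Prop :=
  ∀ c ∈ V, (∃ s, 0 < s ∧
    c ∈ Module.End.maxGenEigenspace (F s).toLinearMap ((p : K) ^ (r * s * j))) →
    c ∈ Submodule.span K S

/-- The classes of algebraic cycles of codimension `j` on `X`. -/
def classesIn {k : Type u} [Field k] {𝒱 : VarClass k} {ops : CycleOps 𝒱}
    (W : WeilCohomology.{u, v} ops) (X : 𝒱.Obj) (j : ℕ) : Set (W.H X) :=
  {c | ∃ z, X.IsCyc j z ∧ W.cl X z = c}

/-- The Tate conjecture for `X` in codimension `j`: the Tate classes, that is the classes in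
`H^{2j}(X)` which are multiplied by `q ^ j` by the Frobenius endomorphism over a finite field with
`q` elements, are linear combinations of classes of algebraic cycles of codimension `j`. -/
def Tate {k : Type u} [Field k] {𝒱 : VarClass k} {ops : CycleOps 𝒱}
    {W : WeilCohomology.{u, v} ops} {p : ℕ} (Φ : FrobSystem W p) (X : 𝒱.Obj) (j : ℕ) : Prop :=
  TateFor (W.gr X (2 * j)) (fun s => W.map (W534.iter (Φ.Fr X) s)) p (Φ.e X) j (classesIn W X j)

/-- The Tate conjecture and semisimplicity for `X` in codimension `j`: the classes in `H^{2j}(X)`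
which are in the generalised eigenspace for `q ^ j` of the Frobenius endomorphism over a finite
field with `q` elements are linear combinations of classes of algebraic cycles of codimension
`j`. -/
def SemisimpleTate {k : Type u} [Field k] {𝒱 : VarClass k} {ops : CycleOps 𝒱}
    {W : WeilCohomology.{u, v} ops} {p : ℕ} (Φ : FrobSystem W p) (X : 𝒱.Obj) (j : ℕ) : Prop :=
  SemisimpleTateFor (W.gr X (2 * j)) (fun s => W.map (W534.iter (Φ.Fr X) s)) p (Φ.e X) j
    (classesIn W X j)

end Pool.Agent.Y103.Fb
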