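import Pool.Agent.Y103.Fb.Times
import Pool.Agent.Y103.Hk.Main2
import Pool.Agent.Y103.Sh.Arith

/-!
# The Tate conjecture for the varieties built from several pieces of K3 type
-/

set_option autoImplicit false
set_option linter.unusedSectionVars false

open CategoryTheory AlgebraicGeometry NumberField
open scoped TensorProduct

universe u v

namespace Pool.Agent.Y103.Fb

open Pool.Agent.H914 Pool.Agent.H914.VarClass Pool.Agent.H914.VarClass.Obj
  Pool.Agent.H914.WeilCohomology Pool.Agent.H281R3.HT Pool.Agent.W552 Pool.Agent.W534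
  Pool.Agent.W458.RK Pool.Agent.W458.MF Pool.Agent.TH132.A Pool.Agent.W536.RR
  Pool.Agent.TH121.KT Pool.Agent.W517.K3 Pool.Agent.Y138.KC Pool.Agent.Y103.Hk
  Pool.Agent.Y103.Sh

variable {k : Type u} [Field k] {𝒱 : VarClass k} {ops : CycleOps 𝒱}
  {W : WeilCohomology.{u, v} ops} {p : ℕ} [Fact p.Prime] {Φ : FrobSystem W p}
  {ι : Qb →+* PadicAlgCl p}
  {r : ℕ} {X : Fin r → 𝒱.Obj} {b e : Fin r → ℕ} {E : Fin r → Type} [∀ i, Field (E i)]
  [∀ i, NumberField (E i)] [∀ i, IsCMField (E i)]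
  {α : ∀ i, E i} {Z U : 𝒱.Obj}

theorem main_mixed [IsAlgClosed W.K] (hpow : ∀ i, ∀ s : ℕ, 0 < s →
      IntermediateField.adjoin ℚ {α i ^ s} = ⊤) (he : ∀ i, 0 < e i)
    (hX : ∀ i, TateIn Φ ((X i).prod (X i)) (2 * b i) ∨ SimpleLefschetz Φ (X i) (b i) (e i) (α i))
    {n : Fin r → ℕ} (hZ : IsBuiltFromMany Φ X b e α n Z)
    {𝓛 : Set (IntermediateField ℚ Qb)}
    {S L₀ : Fin r → IntermediateField ℚ Qb} (H : FamCond ι α n 𝓛 S L₀) {U : 𝒱.Obj}
    (hU : HasSlopes Φ ι 𝓛 U) :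
    (HasCycle W Z 0 → (HomEqNum W (Z.prod U) ↔ HomEqNum W U)) ∧ ∀ c,
      (TateIn Φ (Z.prod U) c ↔ ∀ i ≤ c, HasCycle W Z i → TateIn Φ U (c - i)) ∧
      (SemisimpleTateIn Φ (Z.prod U) c ↔
        ∀ i ≤ c, HasCycle W Z i → SemisimpleTateIn Φ U (c - i)) := by
  have hp := (Fact.out : p.Prime).one_lt
  have hP : ∀ i, PairsAlg Φ (X i) (b i) (e i) (α i) := by
    intro i
    rcases hX i with h | h
    · exact pairs_of_tate (H.rel i).unitary (he i) h
    · exact pairs_of_simple (H.rel i).unitary (hpow i) h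
  have hTT := tateTimesP_mixed hP he hZ H
  have hPpow : ∀ (ν : W.K) (n : ℕ), 0 < n → IsSlopeProduct ι 𝓛 ν → IsSlopeProduct ι 𝓛 (ν ^ n) :=
    fun ν n _ h => inM_pow ν n h
  refine ⟨fun h0 => ?_, fun c => ?_⟩
  · exact homEqNum_prod_iff (fun z hz => tens_of_tateTimesP hp hTT (inM_one _) hPpow hU hz)
      (homEqNum_of_tateTimesP hp hTT (inM_one _)) (one_ne_of_hasCycle h0)
  simp only [hasCycle_iff]
  have key : ∀ b, Y138.TU.TateK Φ (Z.prod U) b c ↔
      ∀ i ≤ c, (∃ x, Z.IsCyc i x ∧ ¬ HomEq W x 0) → Y138.TU.TateK Φ U b (c - i) := fun b =>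
    Y138.TU.tateK_prod_iff hp hTT (inM_one _) hPpow hU
  refine ⟨?_, ?_⟩
  · rw [Y138.TU.tateIn_iff, key 1]
    simp only [Y138.TU.tateIn_iff]
  · simp only [Y138.TU.semisimple_iff, key]
    constructor
    · intro h i hi hx a
      exact h a i hi hx
    · intro h a i hi hx
      exact h i hi hx a

/-- `Z` itself -/
theorem main_self [IsAlgClosed W.K] (hpow : ∀ i, ∀ s : ℕ, 0 < s →
      IntermediateField.adjoin ℚ {α i ^ s} = ⊤) (he : ∀ i, 0 < e i)
    (hX : ∀ i, TateIn Φ ((X i).prod (X i)) (2 * b i) ∨ SimpleLefschetz Φ (X i) (b i) (e i) (α i))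
    {n : Fin r → ℕ} (hZ : IsBuiltFromMany Φ X b e α n Z)
    {𝓛 : Set (IntermediateField ℚ Qb)}
    {S L₀ : Fin r → IntermediateField ℚ Qb} (H : FamCond ι α n 𝓛 S L₀) :
    HomEqNum W Z ∧ ∀ c, SemisimpleTateIn Φ Z c := by
  have hp := (Fact.out : p.Prime).one_lt
  have hP : ∀ i, PairsAlg Φ (X i) (b i) (e i) (α i) := by
    intro i
    rcases hX i with h | h
    · exact pairs_of_tate (H.rel i).unitary (he i) h
    · exact pairs_of_simple (H.rel i).unitary (hpow i) h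
  have hTT := tateTimesP_mixed hP he hZ H
  exact ⟨homEqNum_of_tateTimesP hp hTT (inM_one _), fun c =>
    Y138.TU.semisimple_of_times hp hTT (inM_one _) c⟩

end Pool.Agent.Y103.Fb
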