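import Pool.Agent.Y103.Fb.Defs
import Pool.Agent.Y103.Hk.Word
import Pool.Agent.TH121.KT.Tors

/-!
# Letters and words on varieties built from several pieces
-/

set_option autoImplicit false
set_option linter.unusedSectionVars false

open CategoryTheory AlgebraicGeometry NumberField
open scoped TensorProduct

universe u v

namespace Pool.Agent.Y103.Fb

open Pool.Agent.H914 Pool.Agent.H914.VarClass Pool.Agent.H914.VarClass.Obj
  Pool.Agent.H914.WeilCohomology Pool.Agent.H281R3.HT Pool.Agent.W552 Pool.Agent.W534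
  Pool.Agent.W458.RK Pool.Agent.W458.MF Pool.Agent.TH132.A Pool.Agent.W536.RR
  Pool.Agent.TH121.KT Pool.Agent.Y138.KC Pool.Agent.Y103.Hk

variable {k : Type u} [Field k] {𝒱 : VarClass k} {ops : CycleOps 𝒱}
  {W : WeilCohomology.{u, v} ops} {p : ℕ} {Φ : FrobSystem W p} {r : ℕ} {X : Fin r → 𝒱.Obj}
  {b e : Fin r → ℕ} {E : Fin r → Type} [∀ i, Field (E i)] {α : ∀ i, E i} {Z : 𝒱.Obj}

/-- a letter, for one of the pieces -/
structure FL (Φ : FrobSystem W p) {r : ℕ} (X : Fin r → 𝒱.Obj) (b e : Fin r → ℕ)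
    {E : Fin r → Type} [∀ i, Field (E i)] (α : ∀ i, E i) (Z : 𝒱.Obj) where
  i : Fin r
  l : Lt Φ (X i) (b i) (e i) (α i) Z

namespace FL

/-- the class -/
noncomputable def val (a : FL Φ X b e α Z) : W.H Z := a.l.val

/-- the label -/
def label (a : FL Φ X b e α Z) : Σ i, (E i →+* W.K) := ⟨a.i, a.l.σ⟩

lemma val_comm (a : FL Φ X b e α Z) (u : W.H Z) : a.val * u = u * a.val := a.l.val_comm u

end FL

/-- the class of a list of letters -/
noncomputable def wVal (L : List (FL Φ X b e α Z)) : W.H Z := (L.map FL.val).prod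

lemma wVal_nil : wVal ([] : List (FL Φ X b e α Z)) = 1 := rfl

lemma wVal_cons (a : FL Φ X b e α Z) (L : List (FL Φ X b e α Z)) :
    wVal (a :: L) = a.val * wVal L := by
  rw [wVal, List.map_cons, List.prod_cons]
  rfl

lemma wVal_append (L L' : List (FL Φ X b e α Z)) :
    wVal (L ++ L') = wVal L * wVal L' := by
  rw [wVal, List.map_append, List.prod_append]
  rfl

lemma wVal_swap (L₁ L₂ : List (FL Φ X b e α Z)) (a : FL Φ X b e α Z) :
    wVal (L₁ ++ a :: L₂) = a.val * wVal (L₁ ++ L₂) := by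
  rw [wVal_append, wVal_append, wVal_cons, ← mul_assoc, ← a.val_comm, mul_assoc]

section Alg

variable [∀ i, NumberField (E i)] [∀ i, IsCMField (E i)]

/-- the complex conjugate label -/
noncomputable def bar {K : Type*} [Field K] (x : Σ i, (E i →+* K)) : Σ i, (E i →+* K) :=
  ⟨x.1, cj x.2⟩

lemma bar_bar {K : Type*} [Field K] (x : Σ i, (E i →+* K)) : bar (bar x) = x := by
  obtain ⟨i, σ⟩ := x
  change (⟨i, cj (cj σ)⟩ : Σ i, (E i →+* K)) = ⟨i, σ⟩
  congr 1
  exact cj_cj σ

lemma bar_ne {K : Type*} [Field K] (x : Σ i, (E i →+* K)) : bar x ≠ x := by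
  obtain ⟨i, σ⟩ := x
  intro h
  have h1 : cj σ = σ := by
    simpa [bar] using h
  have h2 : ∀ x : E i, IsCMField.complexConj (E i) x = x := by
    intro x
    exact σ.injective (RingHom.congr_fun h1 x)
  exact IsCMField.complexConj_ne_one (E i) (AlgEquiv.ext h2)

/-- the product of two opposite letters is algebraic -/
lemma pair_alg' (hP : ∀ i, PairsAlg Φ (X i) (b i) (e i) (α i)) (a a' : FL Φ X b e α Z)
    (h : a'.label = bar a.label) : a.val * a'.val ∈ algSpan W Z := by
  obtain ⟨i, l⟩ := a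
  obtain ⟨i', l'⟩ := a'
  simp only [FL.label, bar, Sigma.mk.injEq] at h
  obtain ⟨rfl, h⟩ := h
  exact pair_alg (hP _) l l' (eq_of_heq h)

open Classical in
/-- balanced words are algebraic -/
lemma balanced_alg' (hP : ∀ i, PairsAlg Φ (X i) (b i) (e i) (α i)) :
    ∀ (m : ℕ) (L : List (FL Φ X b e α Z)),
    L.length ≤ m → (∀ x, (L.map FL.label).count x = (L.map FL.label).count (bar x)) →
      wVal L ∈ algSpan W Z := by
  intro m
  induction m with
  | zero =>
    intro L hL _
    rw [List.length_eq_zero_iff.1 (Nat.le_zero.1 hL), wVal_nil]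
    exact one_mem_algSpan
  | succ m ih =>
    intro L hL hbal
    rcases L with _ | ⟨a, L⟩
    · rw [wVal_nil]
      exact one_mem_algSpan
    · have h1 : bar a.label ∈ L.map FL.label := by
        have h2 := hbal a.label
        have h3 : 0 < ((a :: L).map FL.label).count a.label := by
          rw [List.count_pos_iff]
          exact List.mem_cons_self
        rw [h2, List.count_pos_iff, List.map_cons, List.mem_cons] at h3
        rcases h3 with h3 | h3
        · exact absurd h3 (bar_ne _)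
        · exact h3
      obtain ⟨a', ha', hab⟩ := List.mem_map.1 h1
      obtain ⟨L₁, L₂, rfl⟩ := List.append_of_mem ha'
      rw [wVal_cons, wVal_swap, ← mul_assoc]
      refine algSpan_mul (pair_alg' hP a a' hab) (ih _ ?_ fun x => ?_)
      · rw [List.length_cons, List.length_append, List.length_cons] at hL
        rw [List.length_append]
        omega
      · have h2 := hbal x
        simp only [List.map_cons, List.map_append, List.count_cons, List.count_append,
          beq_iff_eq] at h2 ⊢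
        rw [hab] at h2
        have h3 : (bar a.label = x) ↔ (a.label = bar x) := by
          constructor
          · rintro rfl; rw [bar_bar]
          · intro h; rw [h, bar_bar]
        have h4 : (bar a.label = bar x) ↔ (a.label = x) := by
          constructor
          · intro h; rw [← bar_bar a.label, h, bar_bar]
          · rintro rfl; rfl
        simp only [h3, h4] at h2
        omega

end Alg

/-- the product of the numbers `e i * Φ.e (X i)` -/
def tot (Φ : FrobSystem W p) (X : Fin r → 𝒱.Obj) (e : Fin r → ℕ) : ℕ :=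
  ∏ j, (e j * Φ.e (X j))

/-- the exponents -/
def expo' (Φ : FrobSystem W p) (X : Fin r → 𝒱.Obj) (e : Fin r → ℕ) (Z : 𝒱.Obj) (s M : ℕ)
    (i : Fin r) : ℕ :=
  s * Φ.e Z * M * ∏ j ∈ Finset.univ.erase i, (e j * Φ.e (X j))

/-- the eigenvalue of a word -/
lemma word_eigen' {s M : ℕ} (L : List (FL Φ X b e α Z)) (hL : ∀ a ∈ L, a.l.At s M) :
    ∃ (ω : W.K) (A : ℤ), frob Φ Z s (wVal L) = ω • wVal L ∧
      ω ^ (tot Φ X e * M) = (card Φ Z s : W.K) ^ A *
        (L.map fun a => (a.l.σ (α a.i)) ^ expo' Φ X e Z s M a.i).prod := by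
  induction L with
  | nil =>
    refine ⟨1, 0, ?_, ?_⟩
    · rw [wVal_nil, frob_one, one_smul]
    · rw [one_pow, zpow_zero, List.map_nil, List.prod_nil, mul_one]
  | cons a L ih =>
    obtain ⟨ω, A, h1, h2⟩ := ih fun l hl => hL l (List.mem_cons_of_mem _ hl)
    obtain ⟨ω', A', h3, h4⟩ := hL a List.mem_cons_self
    have h5 : ω' ^ (tot Φ X e * M) = (card Φ Z s : W.K) ^
        (A' * (∏ j ∈ Finset.univ.erase a.i, (e j * Φ.e (X j)) : ℕ)) *
          (a.l.σ (α a.i)) ^ expo' Φ X e Z s M a.i := by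
      have h6 : tot Φ X e = (e a.i * Φ.e (X a.i)) *
          ∏ j ∈ Finset.univ.erase a.i, (e j * Φ.e (X j)) :=
        (Finset.mul_prod_erase Finset.univ (fun j => e j * Φ.e (X j)) (Finset.mem_univ a.i)).symm
      rw [h6, show (e a.i * Φ.e (X a.i)) * (∏ j ∈ Finset.univ.erase a.i, (e j * Φ.e (X j))) * M =
        e a.i * Φ.e (X a.i) * M * (∏ j ∈ Finset.univ.erase a.i, (e j * Φ.e (X j))) by ring,
        pow_mul, h4, mul_pow, zpow_mul, zpow_natCast, ← pow_mul, expo']
    refine ⟨ω' * ω, A' * (∏ j ∈ Finset.univ.erase a.i, (e j * Φ.e (X j)) : ℕ) + A, ?_, ?_⟩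
    · rw [wVal_cons, frob_mul_apply, h1]
      change frob Φ Z s a.l.val * _ = _
      rw [h3, smul_mul_smul_comm]
      rfl
    · rw [mul_pow, h2, h5, List.map_cons, List.prod_cons, zpow_add₀ (card_ne Φ s)]
      ring

/-- a good level for a word -/
lemma word_level' (L : List (FL Φ X b e α Z)) : ∃ a M : ℕ, 0 < a ∧ 0 < M ∧
    ∀ t, 0 < t → ∀ l ∈ L, l.l.At (a * t) M := by
  induction L with
  | nil => exact ⟨1, 1, one_pos, one_pos, fun t _ l hl => absurd hl List.not_mem_nil⟩
  | cons b L ih =>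
    obtain ⟨a, M, ha, hM, h⟩ := ih
    obtain ⟨a', M', ha', hM', h'⟩ := b.l.exists_at
    refine ⟨a * a', M * M', Nat.mul_pos ha ha', Nat.mul_pos hM hM', fun t ht l hl => ?_⟩
    rcases List.mem_cons.1 hl with rfl | hl
    · have := (h' (a * t) (Nat.mul_pos ha ht)).mul M
      rwa [show a' * (a * t) = a * a' * t by ring, mul_comm M' M] at this
    · have := (h (a' * t) (Nat.mul_pos ha' ht) l hl).mul M'
      rwa [← mul_assoc] at this

/-- the number of the letters of each kind -/
def cntL (L : List (FL Φ X b e α Z)) (i : Fin r) : ℕ := (L.filter fun a => a.i = i).length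

/-- the words -/
def Words' (Φ : FrobSystem W p) (X : Fin r → 𝒱.Obj) (b e : Fin r → ℕ) (α : ∀ i, E i)
    (n : Fin r → ℕ) (Z : 𝒱.Obj) : Set (W.H Z) :=
  {v | ∃ (L : List (FL Φ X b e α Z)) (j : ℕ) (c : Z.Cycles), (∀ i, cntL L i ≤ n i) ∧
    Z.IsCyc j c ∧ v = wVal L * W.cl Z c}

/-- the words which are eigenvectors at the level `s` -/
def GoodWords' (Φ : FrobSystem W p) (X : Fin r → 𝒱.Obj) (b e : Fin r → ℕ) (α : ∀ i, E i)
    (n : Fin r → ℕ) (Z : 𝒱.Obj) (s : ℕ) : Set (W.H Z) :=
  {v | ∃ (L : List (FL Φ X b e α Z)) (j M : ℕ) (c : Z.Cycles), (∀ i, cntL L i ≤ n i) ∧ 0 < M ∧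
    Z.IsCyc j c ∧ (∀ l ∈ L, l.l.At s M) ∧
    frob Φ Z s (W.cl Z c) = (card Φ Z s : W.K) ^ j • W.cl Z c ∧ v = wVal L * W.cl Z c}

/-- a linear combination of words is a combination of good words for a large level -/
lemma span_good' {n : Fin r → ℕ} {z : W.H Z}
    (hz : z ∈ Submodule.span W.K (Words' Φ X b e α n Z)) :
    ∃ t₀, 0 < t₀ ∧ ∀ t, 0 < t → z ∈ Submodule.span W.K (GoodWords' Φ X b e α n Z (t₀ * t)) := by
  induction hz using Submodule.span_induction with
  | mem v hv =>
    obtain ⟨L, j, c, hLn, hc, rfl⟩ := hv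
    obtain ⟨a, M, ha, hM, h⟩ := word_level' L
    obtain ⟨b, hb, h1⟩ := Φ.cyc hc
    have h1 : frob Φ Z b (W.cl Z c) = (card Φ Z b : W.K) ^ j • W.cl Z c := by
      rw [card_pow]
      exact h1
    refine ⟨a * b, Nat.mul_pos ha hb, fun t ht => Submodule.subset_span
      ⟨L, j, M, c, hLn, hM, hc, ?_, ?_, rfl⟩⟩
    · rw [mul_assoc]
      exact h (b * t) (Nat.mul_pos hb ht)
    · rw [show a * b * t = b * (a * t) by ring]
      exact eig_pow h1 (a * t)
  | zero => exact ⟨1, one_pos, fun t _ => Submodule.zero_mem _⟩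
  | add x y _ _ hx hy =>
    obtain ⟨a, ha, h⟩ := hx
    obtain ⟨b, hb, h'⟩ := hy
    refine ⟨a * b, Nat.mul_pos ha hb, fun t ht => Submodule.add_mem _ ?_ ?_⟩
    · rw [mul_assoc]
      exact h _ (Nat.mul_pos hb ht)
    · rw [show a * b * t = b * (a * t) by ring]
      exact h' _ (Nat.mul_pos ha ht)
  | smul c x _ hx =>
    obtain ⟨a, ha, h⟩ := hx
    exact ⟨a, ha, fun t ht => Submodule.smul_mem _ _ (h t ht)⟩

/-- a list of letters -/
lemma exists_letters' (l : List (Fin r × W.H Z))
    (h : ∀ y ∈ l, y.2 ∈ twistImages Φ (X y.1) (b y.1) (e y.1) (α y.1) Z) :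
    ∃ L : List (FL Φ X b e α Z), (∀ i, cntL L i = (l.filter fun y => y.1 = i).length) ∧
      wVal L = (l.map Prod.snd).prod := by
  induction l with
  | nil => exact ⟨[], fun _ => rfl, rfl⟩
  | cons a l ih =>
    obtain ⟨L, h1, h2⟩ := ih fun y hy => h y (List.mem_cons_of_mem _ hy)
    obtain ⟨_, ⟨j, z, hz, rfl⟩, x, ⟨σ, hx⟩, ha⟩ := h a List.mem_cons_self
    refine ⟨⟨a.1, ⟨j, z, hz, σ, x, hx⟩⟩ :: L, fun i => ?_, ?_⟩
    · have h3 := h1 i
      unfold cntL at h3 ⊢
      rw [List.filter_cons, List.filter_cons]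
      by_cases hi : a.1 = i
      · simp only [hi, decide_true, if_true, List.length_cons, h3]
      · simp only [hi, decide_false, Bool.false_eq_true, if_false, h3]
    · rw [wVal_cons, h2, List.map_cons, List.prod_cons, ha]
      rfl

/-- **The cohomology is spanned by words.** -/
theorem span_words' {n : Fin r → ℕ} (hZ : IsBuiltFromMany Φ X b e α n Z) (z : W.H Z) :
    z ∈ Submodule.span W.K (Words' Φ X b e α n Z) := by
  have hz : z ∈ Submodule.span W.K {a | ∃ (l : List (Fin r × W.H Z)) (c : W.H Z),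
      (∀ i, (l.filter fun y => y.1 = i).length ≤ n i) ∧
      (∀ y ∈ l, y.2 ∈ twistImages Φ (X y.1) (b y.1) (e y.1) (α y.1) Z) ∧
      c ∈ cycleClasses W Z ∧ a = (l.map Prod.snd).prod * c} := by
    have h1 : Submodule.span W.K {a | ∃ (l : List (Fin r × W.H Z)) (c : W.H Z),
      (∀ i, (l.filter fun y => y.1 = i).length ≤ n i) ∧
      (∀ y ∈ l, y.2 ∈ twistImages Φ (X y.1) (b y.1) (e y.1) (α y.1) Z) ∧
      c ∈ cycleClasses W Z ∧ a = (l.map Prod.snd).prod * c} = ⊤ := hZ
    rw [h1]
    exact Submodule.mem_top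
  refine Submodule.span_mono ?_ hz
  rintro a ⟨l, c, hl, hy, ⟨j, z, hz, rfl⟩, rfl⟩
  obtain ⟨L, h1, h2⟩ := exists_letters' l hy
  exact ⟨L, j, z, fun i => by rw [h1]; exact hl i, hz, by rw [h2]⟩

section Count

variable [∀ i, NumberField (E i)]

open Classical in
/-- the multiplicities -/
noncomputable def mult' (L : List (FL Φ X b e α Z)) (i : Fin r) (σ : E i →+* W.K) : ℕ :=
  (L.map FL.label).count ⟨i, σ⟩

lemma sum_mult' (L : List (FL Φ X b e α Z)) (i : Fin r) :
    ∑ σ : E i →+* W.K, mult' L i σ = cntL L i := by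
  classical
  induction L with
  | nil => simp [mult', cntL]
  | cons a L ih =>
    have h1 : ∀ σ : E i →+* W.K, mult' (a :: L) i σ =
        mult' L i σ + if a.label = ⟨i, σ⟩ then 1 else 0 := by
      intro σ
      rw [mult', mult', List.map_cons, List.count_cons]
      simp only [beq_iff_eq]
    rw [Finset.sum_congr rfl fun σ _ => h1 σ, Finset.sum_add_distrib, ih]
    unfold cntL
    rw [List.filter_cons]
    by_cases hi : a.i = i
    · subst hi
      simp only [decide_true, if_true, List.length_cons]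
      congr 1
      have h2 : ∀ σ : E a.i →+* W.K, (a.label = (⟨a.i, σ⟩ : Σ i, (E i →+* W.K))) ↔ a.l.σ = σ := by
        intro σ
        simp only [FL.label, Sigma.mk.injEq, heq_eq_eq, true_and]
      simp only [h2]
      simp
    · simp only [hi, decide_false, Bool.false_eq_true, if_false]
      rw [Finset.sum_eq_zero, add_zero]
      intro σ _
      rw [if_neg]
      intro h
      exact hi (congrArg Sigma.fst h)

/-- a product over a list of letters -/
lemma prod_letters'' (w : Fin r → ℕ) (L : List (FL Φ X b e α Z)) :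
    (L.map fun a => (a.l.σ (α a.i)) ^ w a.i).prod = letterProd α w (mult' L) := by
  classical
  have h1 : (L.map fun a => (a.l.σ (α a.i)) ^ w a.i) =
      (L.map FL.label).map fun x : Σ i, (E i →+* W.K) => (x.2 (α x.1)) ^ w x.1 := by
    rw [List.map_map]
    rfl
  rw [h1, Finset.prod_list_map_count, Finset.prod_subset (Finset.subset_univ _),
    Fintype.prod_sigma]
  · unfold letterProd
    refine Finset.prod_congr rfl fun i _ => Finset.prod_congr rfl fun σ _ => ?_
    rw [← pow_mul]
    rfl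
  · intro x _ hx
    rw [List.mem_toFinset] at hx
    rw [List.count_eq_zero_of_not_mem hx, pow_zero]

end Count

end Pool.Agent.Y103.Fb
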